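import Pool.Agent.H81.RW.Wka
import Pool.Agent.H81.RW.Ub
import Pool.Agent.H39.HO.PB

/-!
# LW*, endgame, module Rad: from the frontier of a level set `{s < u}`, `1/2 ≤ s`, to the circle `ψ (‖y‖ = θ₁)`

`ψ` is the Riemann map of `{1/3 < u}` (output of `gdw`). The point `x` of `closure {s < u}` with the largest `‖g x‖` is in the frontier (open
mapping); the radial segment from `x` to the circle has no other points of `closure {s < u}`: `1/3 < u ≤ s` on it.
-/

set_option autoImplicit false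

open Filter Topology Metric Set

namespace Pool.Agent.H47.LW

open Pool.Agent.H56.TH Pool.Agent.H81.RW

variable {P : Set ℂ} {u : ℂ → ℝ} {ψ g : ℂ → ℂ} {θ θ₁ : ℝ}

theorem rad (hu : UM P u) {v : ℂ} (hv : u v = 1) (hψ : DifferentiableOn ℂ ψ (ball 0 1))
    (hg : ∀ x ∈ ball (0 : ℂ) 1, 1 / 3 < u (ψ x) ∧ g (ψ x) = x)
    (hgd : DifferentiableOn ℂ g {x | 1 / 3 < u x}) (hψg : ∀ y, 1 / 3 < u y → g y ∈ ball (0 : ℂ) 1 ∧ ψ (g y) = y)
    (hθ : ∀ x ∈ ball (0 : ℂ) 1, 1 / 2 ≤ u (ψ x) → ‖x‖ ≤ θ) (hθ1 : θ < θ₁) (hθ2 : θ₁ < 1) {s : ℝ} (hs : 1 / 2 ≤ s)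
    (hs1 : s < 1) :
    ∃ S : Set ℂ, IsPreconnected S ∧ frontier {y | s < u y} ⊆ S ∧ (∃ y : ℂ, ‖y‖ = θ₁ ∧ ψ y ∈ S) ∧
      ∀ x ∈ S, 1 / 3 < u x ∧ u x ≤ s := by
  have huc : Continuous u := ul_cont (ul_um hu)
  have hVo : IsOpen {y | s < u y} := isOpen_lt continuous_const huc
  have hVb : Bornology.IsBounded {y | s < u y} :=
    hu.cs.isBounded.subset fun x (hx : s < u x) => subset_tsupport _ (by
      rw [Function.mem_support]
      linarith)
  have hVc : IsPreconnected {y | s < u y} := hu.co s (by linarith) hs1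
  have hVf : Full {y | s < u y} := hu.fu s (by linarith) hs1
  have hfr := wka hVo hVb hVc hVf
  have hcl : closure {y | s < u y} ⊆ {y | s ≤ u y} :=
    closure_minimal (fun y (hy : s < u y) => hy.le) (isClosed_le continuous_const huc)
  have hcomp : IsCompact (closure {y | s < u y}) := hVb.isCompact_closure
  have hcl3 : closure {y | s < u y} ⊆ {x | 1 / 3 < u x} := fun y hy => by
    have := hcl hy
    show 1 / 3 < u y
    have h2 : s ≤ u y := this
    linarith
  have hvV : v ∈ {y | s < u y} := by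
    show s < u v
    rw [hv]
    exact hs1
  have hgc : ContinuousOn (fun x => ‖g x‖) (closure {y | s < u y}) := (hgd.continuousOn.mono hcl3).norm
  obtain ⟨x, hx, hxm⟩ := hcomp.exists_isMaxOn ⟨v, subset_closure hvV⟩ hgc
  have hgi : InjOn g {x | 1 / 3 < u x} := fun a ha b hb he => by rw [← (hψg a ha).2, ← (hψg b hb).2, he]
  have h3o : IsOpen {x | 1 / 3 < u x} := isOpen_lt continuous_const huc
  have hgV : IsOpen (g '' {y | s < u y}) :=
    Pool.Agent.H39.HO.inj_open h3o hgd hgi (subset_closure.trans hcl3) hVo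
  -- points of `g '' V` have strictly smaller norm
  have hlt : ∀ y ∈ {y | s < u y}, ‖g y‖ < ‖g x‖ := by
    intro y hy
    obtain ⟨e, he, hes⟩ := Metric.isOpen_iff.1 hgV (g y) (mem_image_of_mem g hy)
    obtain ⟨w, hw1, hw2⟩ : ∃ w : ℂ, w ∈ ball (g y) e ∧ ‖g y‖ < ‖w‖ := by
      rcases eq_or_ne (g y) 0 with h0 | h0
      · refine ⟨((e / 2 : ℝ) : ℂ), ?_, ?_⟩
        · rw [h0, mem_ball_zero_iff, Complex.norm_real, Real.norm_of_nonneg (by positivity)]
          linarith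
        · rw [h0, norm_zero, Complex.norm_real, Real.norm_of_nonneg (by positivity)]
          positivity
      · have hn : 0 < ‖g y‖ := norm_pos_iff.2 h0
        refine ⟨((1 + e / 2 / ‖g y‖ : ℝ) : ℂ) * g y, ?_, ?_⟩
        · rw [mem_ball_iff_norm]
          have e1 : ((1 + e / 2 / ‖g y‖ : ℝ) : ℂ) * g y - g y = ((e / 2 / ‖g y‖ : ℝ) : ℂ) * g y := by
            push_cast
            ring
          rw [e1, norm_mul, Complex.norm_real, Real.norm_of_nonneg (by positivity), div_mul_cancel₀ _ hn.ne']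
          linarith
        · rw [norm_mul, Complex.norm_real, Real.norm_of_nonneg (by positivity)]
          have : 0 < e / 2 / ‖g y‖ := by positivity
          nlinarith
    obtain ⟨y', hy', hyw⟩ := hes hw1
    have h5 : ‖g y'‖ ≤ ‖g x‖ := hxm (subset_closure hy')
    rw [hyw] at h5
    exact hw2.trans_le h5
  have hxf : x ∈ frontier {y | s < u y} := by
    refine ⟨hx, ?_⟩
    rw [hVo.interior_eq]
    intro hxV
    exact lt_irrefl _ (hlt x hxV)
  have hux : u x = s := by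
    refine le_antisymm ?_ (hcl hx)
    by_contra hcon
    push Not at hcon
    have : x ∈ interior {y | s < u y} := by
      rw [hVo.interior_eq]
      exact hcon
    exact hxf.2 this
  have hfru : ∀ y ∈ frontier {y | s < u y}, u y = s := by
    intro y hy
    refine le_antisymm ?_ (hcl hy.1)
    by_contra hcon
    push Not at hcon
    have : y ∈ interior {y | s < u y} := by
      rw [hVo.interior_eq]
      exact hcon
    exact hy.2 this
  have hx0 : 0 < ‖g x‖ := (norm_nonneg _).trans_lt (hlt v hvV)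
  obtain ⟨hgx1, hgx2⟩ := hψg x (hcl3 hx)
  have hgxθ : ‖g x‖ ≤ θ := hθ _ hgx1 (by rw [hgx2, hux]; exact hs)
  have hT : 1 ≤ θ₁ / ‖g x‖ := by
    rw [le_div_iff₀ hx0]
    linarith
  have hin : ∀ t ∈ Icc (1 : ℝ) (θ₁ / ‖g x‖), ‖(t : ℂ) * g x‖ = t * ‖g x‖ ∧ t * ‖g x‖ ≤ θ₁ := by
    intro t ht
    refine ⟨by rw [norm_mul, Complex.norm_real, Real.norm_of_nonneg (by linarith [ht.1])], ?_⟩
    have := ht.2
    rwa [le_div_iff₀ hx0] at this
  have hball : ∀ t ∈ Icc (1 : ℝ) (θ₁ / ‖g x‖), (t : ℂ) * g x ∈ ball (0 : ℂ) 1 := by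
    intro t ht
    obtain ⟨e1, e2⟩ := hin t ht
    rw [mem_ball_zero_iff, e1]
    linarith
  have hseg : IsPreconnected ((fun t : ℝ => ψ ((t : ℂ) * g x)) '' Icc (1 : ℝ) (θ₁ / ‖g x‖)) :=
    isPreconnected_Icc.image _ (hψ.continuousOn.comp (by fun_prop) fun t ht => hball t ht)
  refine ⟨frontier {y | s < u y} ∪ (fun t : ℝ => ψ ((t : ℂ) * g x)) '' Icc (1 : ℝ) (θ₁ / ‖g x‖), ?_, subset_union_left, ?_, ?_⟩
  · refine IsPreconnected.union x hxf ⟨1, ⟨le_rfl, hT⟩, ?_⟩ hfr hseg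
    show ψ (((1 : ℝ) : ℂ) * g x) = x
    rw [Complex.ofReal_one, one_mul, hgx2]
  · refine ⟨((θ₁ / ‖g x‖ : ℝ) : ℂ) * g x, ?_, Or.inr ⟨θ₁ / ‖g x‖, ⟨hT, le_rfl⟩, rfl⟩⟩
    rw [norm_mul, Complex.norm_real, Real.norm_of_nonneg (by linarith), div_mul_cancel₀ _ hx0.ne']
  · rintro y (hy | ⟨t, ht, rfl⟩)
    · rw [hfru y hy]
      exact ⟨by linarith, le_rfl⟩
    · refine ⟨(hg _ (hball t ht)).1, ?_⟩
      show u (ψ ((t : ℂ) * g x)) ≤ s
      by_contra hcon
      push Not at hcon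
      have h1 := hlt _ (show ψ ((t : ℂ) * g x) ∈ {y | s < u y} from hcon)
      rw [(hg _ (hball t ht)).2, (hin t ht).1] at h1
      nlinarith [ht.1]

end Pool.Agent.H47.LW
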