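import Pool.Agent.H81.RW.Wka
import Pool.Agent.H81.RW.Ub

/-!
# LW*, endgame, module Kc: from the level sets of the near minimal function to the circles of the window

`ψ` is the Riemann map of `{1/3 < u}` (output of `gdw`), `{1/2 ≤ u}` is in `ψ (‖x‖ ≤ θ)`. `kc_pre`: `ψ (closedBall 0 θ₁)` minus `{1/2 < u}` is
preconnected. `kc`: every point `x` with `1/3 < u x ≤ 1/2` is joined to the circle `ψ (‖y‖ = θ₁)` by a preconnected set in `{1/3 < u ≤ 1/2}`.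
`kc_hit`: a preconnected set with a point where `1/3 < u` and a point where `u ≤ 1/2` contains a point with `1/3 < u ≤ 1/2`.
-/

set_option autoImplicit false

open Filter Topology Metric Set

namespace Pool.Agent.H47.LW

open Pool.Agent.H56.TH Pool.Agent.H81.RW

variable {P : Set ℂ} {u : ℂ → ℝ} {ψ g : ℂ → ℂ} {θ θ₁ : ℝ}

theorem kc_pre (hu : UM P u) (hψ : DifferentiableOn ℂ ψ (ball 0 1)) (hg : ∀ x ∈ ball (0 : ℂ) 1, 1 / 3 < u (ψ x) ∧ g (ψ x) = x)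
    (hgc : ContinuousOn g {x | 1 / 3 < u x}) (hψg : ∀ y, 1 / 3 < u y → g y ∈ ball (0 : ℂ) 1 ∧ ψ (g y) = y)
    (hθ : ∀ x ∈ ball (0 : ℂ) 1, 1 / 2 ≤ u (ψ x) → ‖x‖ ≤ θ) (hθ1 : θ < θ₁) (hθ2 : θ₁ < 1) (hθ0 : 0 < θ₁) :
    IsPreconnected (ψ '' closedBall 0 θ₁ ∩ {x | u x ≤ 1 / 2}) := by
  have huc : Continuous u := ul_cont (ul_um hu)
  have hcb : closedBall (0 : ℂ) θ₁ ⊆ ball 0 1 := closedBall_subset_ball hθ2
  have hbb : ball (0 : ℂ) θ₁ ⊆ ball 0 1 := ball_subset_ball hθ2.le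
  have hlow : IsPreconnected {x | u x ≤ 1 / 2} := by
    have h1 : IsOpen {x | 1 / 2 < u x} := isOpen_lt continuous_const huc
    have h2 : Bornology.IsBounded {x | 1 / 2 < u x} :=
      hu.cs.isBounded.subset fun x (hx : 1 / 2 < u x) => subset_tsupport _ (by
        rw [Function.mem_support]
        linarith)
    have h3 := compl_pre h1 h2 (hu.fu _ (by norm_num) (by norm_num))
    have e : {x | 1 / 2 < u x}ᶜ = {x | u x ≤ 1 / 2} := by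
      ext x
      simp
    rwa [e] at h3
  have hScl : IsClosed (ψ '' closedBall 0 θ₁ ∩ {x | u x ≤ 1 / 2}) :=
    (((isCompact_closedBall (0 : ℂ) θ₁).image_of_continuousOn (hψ.continuousOn.mono hcb)).isClosed).inter
      (isClosed_le huc continuous_const)
  -- the image of the open disc is open
  have hop : IsOpen (ψ '' ball 0 θ₁) := by
    have e : ψ '' ball 0 θ₁ = {x | 1 / 3 < u x} ∩ g ⁻¹' ball 0 θ₁ := by
      ext x
      constructor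
      · rintro ⟨y, hy, rfl⟩
        refine ⟨(hg y (hbb hy)).1, ?_⟩
        rw [mem_preimage, (hg y (hbb hy)).2]
        exact hy
      · rintro ⟨h1, h2⟩
        exact ⟨g x, h2, (hψg x h1).2⟩
    rw [e]
    exact hgc.isOpen_inter_preimage (isOpen_lt continuous_const huc) isOpen_ball
  have hcirc : IsPreconnected (ψ '' sphere 0 θ₁) := by
    refine (isPreconnected_sphere (by simp) _ _).image _ (hψ.continuousOn.mono fun x hx => hcb (sphere_subset_closedBall hx))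
  have hcircS : ψ '' sphere 0 θ₁ ⊆ ψ '' closedBall 0 θ₁ ∩ {x | u x ≤ 1 / 2} := by
    rintro _ ⟨y, hy, rfl⟩
    have hyc := sphere_subset_closedBall hy
    refine ⟨mem_image_of_mem ψ hyc, ?_⟩
    show u (ψ y) ≤ 1 / 2
    by_contra hcon
    push Not at hcon
    have := hθ y (hcb hyc) hcon.le
    rw [mem_sphere_zero_iff_norm] at hy
    linarith
  have hne : (ψ '' sphere 0 θ₁).Nonempty := by
    refine ⟨ψ θ₁, θ₁, ?_, rfl⟩
    rw [mem_sphere_zero_iff_norm, Complex.norm_real, Real.norm_of_nonneg hθ0.le]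
  rw [isPreconnected_closed_iff]
  have key : ∀ t t' : Set ℂ, IsClosed t → IsClosed t' → ψ '' closedBall 0 θ₁ ∩ {x | u x ≤ 1 / 2} ⊆ t ∪ t' →
      ψ '' sphere 0 θ₁ ⊆ t → ((ψ '' closedBall 0 θ₁ ∩ {x | u x ≤ 1 / 2}) ∩ t').Nonempty →
      ((ψ '' closedBall 0 θ₁ ∩ {x | u x ≤ 1 / 2}) ∩ (t ∩ t')).Nonempty := by
    intro t t' ht ht' hs hc ⟨x, hx, hxt⟩
    obtain ⟨c, hcc⟩ := hne
    rw [isPreconnected_closed_iff] at hlow
    obtain ⟨y, hy, hy1, hy2⟩ := hlow (((ψ '' closedBall 0 θ₁ ∩ {x | u x ≤ 1 / 2}) ∩ t) ∪ (ψ '' ball 0 θ₁)ᶜ)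
      ((ψ '' closedBall 0 θ₁ ∩ {x | u x ≤ 1 / 2}) ∩ t') ((hScl.inter ht).union hop.isClosed_compl) (hScl.inter ht')
      (fun y hy => by
        by_cases h1 : y ∈ ψ '' closedBall 0 θ₁
        · rcases hs ⟨h1, hy⟩ with h2 | h2
          · exact Or.inl (Or.inl ⟨⟨h1, hy⟩, h2⟩)
          · exact Or.inr ⟨⟨h1, hy⟩, h2⟩
        · exact Or.inl (Or.inr fun h2 => h1 (image_mono ball_subset_closedBall h2)))
      ⟨c, (hcircS hcc).2, Or.inl ⟨hcircS hcc, hc hcc⟩⟩ ⟨x, hx.2, hx, hxt⟩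
    rcases hy1 with h1 | h1
    · exact ⟨y, hy2.1, h1.2, hy2.2⟩
    · obtain ⟨w, hw, hwy⟩ := hy2.1.1
      have hws : w ∈ sphere (0 : ℂ) θ₁ := by
        rw [mem_sphere_zero_iff_norm]
        rw [mem_closedBall_zero_iff] at hw
        refine le_antisymm hw ?_
        by_contra hlt
        push Not at hlt
        exact h1 ⟨w, mem_ball_zero_iff.2 hlt, hwy⟩
      exact ⟨y, hy2.1, hc (hwy ▸ mem_image_of_mem ψ hws), hy2.2⟩
  intro t t' ht ht' hs h1 h2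
  by_contra hcon
  rw [isPreconnected_closed_iff] at hcirc
  -- the circle is in one of the two sets
  by_cases hc1 : (ψ '' sphere 0 θ₁ ∩ t).Nonempty
  · by_cases hc2 : (ψ '' sphere 0 θ₁ ∩ t').Nonempty
    · obtain ⟨y, hy1, hy2⟩ := hcirc t t' ht ht' (hcircS.trans hs) hc1 hc2
      exact hcon ⟨y, hcircS hy1, hy2⟩
    · refine hcon (key t t' ht ht' hs (fun y hy => ?_) h2)
      rcases hs (hcircS hy) with h3 | h3
      · exact h3
      · exact absurd ⟨y, hy, h3⟩ hc2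
  · refine hcon ?_
    rw [inter_comm t t']
    refine key t' t ht' ht (by rwa [union_comm]) (fun y hy => ?_) h1
    rcases hs (hcircS hy) with h3 | h3
    · exact absurd ⟨y, hy, h3⟩ hc1
    · exact h3

/-- from a point with `1/3 < u ≤ 1/2` to the circle -/
theorem kc (hu : UM P u) (hψ : DifferentiableOn ℂ ψ (ball 0 1)) (hg : ∀ x ∈ ball (0 : ℂ) 1, 1 / 3 < u (ψ x) ∧ g (ψ x) = x)
    (hgc : ContinuousOn g {x | 1 / 3 < u x}) (hψg : ∀ y, 1 / 3 < u y → g y ∈ ball (0 : ℂ) 1 ∧ ψ (g y) = y)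
    (hθ : ∀ x ∈ ball (0 : ℂ) 1, 1 / 2 ≤ u (ψ x) → ‖x‖ ≤ θ) (hθ1 : θ < θ₁) (hθ2 : θ₁ < 1) (hθ0 : 0 < θ₁) {x : ℂ}
    (hx1 : 1 / 3 < u x) (hx2 : u x ≤ 1 / 2) :
    ∃ S : Set ℂ, IsPreconnected S ∧ x ∈ S ∧ (∃ y : ℂ, ‖y‖ = θ₁ ∧ ψ y ∈ S) ∧ ∀ s ∈ S, 1 / 3 < u s ∧ u s ≤ 1 / 2 := by
  obtain ⟨h1, h2⟩ := hψg x hx1
  have hcb : closedBall (0 : ℂ) θ₁ ⊆ ball 0 1 := closedBall_subset_ball hθ2
  rcases le_or_gt ‖g x‖ θ₁ with h3 | h3
  · refine ⟨ψ '' closedBall 0 θ₁ ∩ {x | u x ≤ 1 / 2}, kc_pre hu hψ hg hgc hψg hθ hθ1 hθ2 hθ0, ⟨⟨g x, mem_closedBall_zero_iff.2 h3, h2⟩, hx2⟩,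
      ⟨θ₁, ?_, ⟨θ₁, ?_, rfl⟩, ?_⟩, ?_⟩
    · rw [Complex.norm_real, Real.norm_of_nonneg hθ0.le]
    · rw [mem_closedBall_zero_iff, Complex.norm_real, Real.norm_of_nonneg hθ0.le]
    · show u (ψ θ₁) ≤ 1 / 2
      by_contra hcon
      push Not at hcon
      have := hθ θ₁ (mem_ball_zero_iff.2 (by rwa [Complex.norm_real, Real.norm_of_nonneg hθ0.le])) hcon.le
      rw [Complex.norm_real, Real.norm_of_nonneg hθ0.le] at this
      linarith
    · rintro _ ⟨⟨y, hy, rfl⟩, hs⟩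
      exact ⟨(hg y (hcb hy)).1, hs⟩
  · have hgx : 0 < ‖g x‖ := hθ0.trans h3
    rw [mem_ball_zero_iff] at h1
    have hin : ∀ t ∈ Icc (θ₁ / ‖g x‖) 1, ‖(t : ℂ) * g x‖ = t * ‖g x‖ ∧ θ₁ ≤ t * ‖g x‖ ∧ t * ‖g x‖ ≤ ‖g x‖ := by
      intro t ht
      have ht0 : 0 ≤ t := le_trans (by positivity) ht.1
      refine ⟨by rw [norm_mul, Complex.norm_real, Real.norm_of_nonneg ht0], ?_, ?_⟩
      · have := ht.1
        rwa [div_le_iff₀ hgx] at this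
      · nlinarith [ht.2]
    have hball : ∀ t ∈ Icc (θ₁ / ‖g x‖) 1, (t : ℂ) * g x ∈ ball (0 : ℂ) 1 := by
      intro t ht
      obtain ⟨e1, e2, e3⟩ := hin t ht
      rw [mem_ball_zero_iff, e1]
      linarith
    refine ⟨(fun t : ℝ => ψ ((t : ℂ) * g x)) '' Icc (θ₁ / ‖g x‖) 1, ?_, ⟨1, ⟨?_, le_rfl⟩, ?_⟩, ⟨((θ₁ / ‖g x‖ : ℝ) : ℂ) * g x, ?_,
      ⟨θ₁ / ‖g x‖, ⟨le_rfl, ?_⟩, rfl⟩⟩, ?_⟩
    · refine isPreconnected_Icc.image _ ?_
      exact hψ.continuousOn.comp (by fun_prop) fun t ht => hball t ht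
    · rw [div_le_one hgx]
      exact h3.le
    · show ψ (((1 : ℝ) : ℂ) * g x) = x
      rw [Complex.ofReal_one, one_mul, h2]
    · rw [norm_mul, Complex.norm_real, Real.norm_of_nonneg (by positivity), div_mul_cancel₀ _ hgx.ne']
    · rw [div_le_one hgx]
      exact h3.le
    · rintro _ ⟨t, ht, rfl⟩
      obtain ⟨e1, e2, e3⟩ := hin t ht
      refine ⟨(hg _ (hball t ht)).1, ?_⟩
      show u (ψ ((t : ℂ) * g x)) ≤ 1 / 2
      by_contra hcon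
      push Not at hcon
      have := hθ _ (hball t ht) hcon.le
      rw [e1] at this
      linarith

theorem kc_hit (hu : UM P u) {S : Set ℂ} (hS : IsPreconnected S) {x y : ℂ} (hx : x ∈ S) (hy : y ∈ S) (h1 : 1 / 3 < u x)
    (h2 : u y ≤ 1 / 2) : ∃ s ∈ S, 1 / 3 < u s ∧ u s ≤ 1 / 2 := by
  have huc : Continuous u := ul_cont (ul_um hu)
  rcases le_or_gt (u x) (1 / 2) with h3 | h3
  · exact ⟨x, hx, h1, h3⟩
  · have h4 := hS.intermediate_value hy hx huc.continuousOn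
    obtain ⟨s, hs, hsu⟩ := h4 (show (1 / 2 : ℝ) ∈ Icc (u y) (u x) from ⟨h2, h3.le⟩)
    exact ⟨s, hs, by rw [hsu]; norm_num, hsu.le⟩

end Pool.Agent.H47.LW
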