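import Mathlib

/-!
# LW* (MP_8f2e1c_an), endgame: Moebius maps of the disc, the pseudohyperbolic distance, Schwarz-Pick

`mo a w = (w + a) / (1 + conj a w)`, `pd x y = ‖mo (-y) x‖`. `pd_mo`: invariance. `sp_der`: `‖h' x‖ (1 - ‖x‖²) ≤ 1 - ‖h x‖²` for `h` from
the disc to the disc. `sp_bd`: `‖h' x‖ (1 - ‖x‖²) ≤ 2 D` for `h` with values in a disc of radius `D`.
-/

set_option autoImplicit false

open Filter Topology Metric Set

namespace Pool.Agent.H47.LW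

/-- Moebius maps -/
noncomputable def mo (a w : ℂ) : ℂ := (w + a) / (1 + (starRingEnd ℂ) a * w)

/-- the pseudohyperbolic distance -/
noncomputable def pd (x y : ℂ) : ℝ := ‖mo (-y) x‖

theorem mo_id (a w : ℂ) : ‖1 + (starRingEnd ℂ) a * w‖ ^ 2 - ‖w + a‖ ^ 2 = (1 - ‖a‖ ^ 2) * (1 - ‖w‖ ^ 2) := by
  simp only [Complex.sq_norm, Complex.normSq_apply, Complex.add_re, Complex.add_im, Complex.mul_re,
    Complex.mul_im, Complex.one_re, Complex.one_im, Complex.conj_re, Complex.conj_im]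
  ring

theorem mo_lt' {a w : ℂ} (ha : ‖a‖ < 1) (hw : ‖w‖ < 1) : ‖w + a‖ < ‖1 + (starRingEnd ℂ) a * w‖ := by
  have h1 : 0 < (1 - ‖a‖ ^ 2) * (1 - ‖w‖ ^ 2) := by
    have h2 := norm_nonneg a
    have h3 := norm_nonneg w
    refine mul_pos ?_ ?_ <;> nlinarith
  have h2 := mo_id a w
  exact lt_of_pow_lt_pow_left₀ 2 (norm_nonneg _) (by linarith)

theorem mo_ne {a w : ℂ} (ha : ‖a‖ < 1) (hw : ‖w‖ < 1) : 1 + (starRingEnd ℂ) a * w ≠ 0 := by
  rw [← norm_pos_iff]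
  exact lt_of_le_of_lt (norm_nonneg _) (mo_lt' ha hw)

theorem mo_lt {a w : ℂ} (ha : ‖a‖ < 1) (hw : ‖w‖ < 1) : ‖mo a w‖ < 1 := by
  unfold mo
  rw [norm_div, div_lt_one (norm_pos_iff.2 (mo_ne ha hw))]
  exact mo_lt' ha hw

theorem mo_zero (a : ℂ) : mo a 0 = a := by simp [mo]

theorem mo_self (a : ℂ) : mo (-a) a = 0 := by simp [mo]

private theorem alg1 {A a w : ℂ} (h1 : 1 + A * w ≠ 0) (h2 : 1 - A * a ≠ 0) :
    ((w + a) / (1 + A * w) + -a) / (1 + -A * ((w + a) / (1 + A * w))) = w := by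
  have e1 : (w + a) / (1 + A * w) + -a = w * (1 - A * a) / (1 + A * w) := by
    rw [eq_div_iff h1, add_mul, div_mul_cancel₀ _ h1]
    ring
  have e2 : 1 + -A * ((w + a) / (1 + A * w)) = (1 - A * a) / (1 + A * w) := by
    rw [eq_div_iff h1, add_mul, mul_assoc, div_mul_cancel₀ _ h1]
    ring
  rw [e1, e2, div_div_div_cancel_right₀ h1, mul_div_cancel_right₀ _ h2]

private theorem alg2 {A a w w' : ℂ} (h1 : 1 + A * w ≠ 0) (h2 : 1 + A * w' ≠ 0) :
    (w + a) / (1 + A * w) + -((w' + a) / (1 + A * w')) = (w - w') * (1 - a * A) / ((1 + A * w) * (1 + A * w')) := by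
  rw [← sub_eq_add_neg, div_sub_div _ _ h1 h2]
  congr 1
  ring

private theorem alg3 {A a w W : ℂ} (h1 : 1 + A * w ≠ 0) (h2 : 1 + a * W ≠ 0) :
    1 + -((W + A) / (1 + a * W)) * ((w + a) / (1 + A * w)) = (1 - W * w) * (1 - a * A) / ((1 + A * w) * (1 + a * W)) := by
  rw [eq_div_iff (mul_ne_zero h1 h2), neg_mul, div_mul_div_comm, add_mul, neg_mul]
  have e : (W + A) * (w + a) / ((1 + a * W) * (1 + A * w)) * ((1 + A * w) * (1 + a * W)) = (W + A) * (w + a) := by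
    rw [mul_comm (1 + A * w) (1 + a * W), div_mul_cancel₀ _ (mul_ne_zero h2 h1)]
  rw [e]
  ring

theorem mo_inv {a w : ℂ} (ha : ‖a‖ < 1) (hw : ‖w‖ < 1) : mo (-a) (mo a w) = w := by
  have h1 := mo_ne ha hw
  have h2 : 1 - (starRingEnd ℂ) a * a ≠ 0 := by
    have := mo_ne (a := -a) (by rwa [norm_neg]) ha
    simpa [map_neg, sub_eq_add_neg] using this
  unfold mo
  rw [map_neg]
  exact alg1 h1 h2

theorem mo_inv' {a w : ℂ} (ha : ‖a‖ < 1) (hw : ‖w‖ < 1) : mo a (mo (-a) w) = w := by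
  have := mo_inv (a := -a) (by rwa [norm_neg]) hw
  rwa [neg_neg] at this

theorem mo_diff {a : ℂ} (ha : ‖a‖ < 1) : DifferentiableOn ℂ (mo a) (ball 0 1) := by
  unfold mo
  refine (differentiableOn_id.add_const a).div ((differentiableOn_const 1).add (differentiableOn_id.const_mul _)) fun w hw => ?_
  exact mo_ne ha (mem_ball_zero_iff.1 hw)

theorem mo_der {a w : ℂ} (ha : ‖a‖ < 1) (hw : ‖w‖ < 1) :
    HasDerivAt (mo a) ((1 - ‖a‖ ^ 2 : ℝ) / (1 + (starRingEnd ℂ) a * w) ^ 2) w := by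
  have h1 : HasDerivAt (fun w : ℂ => w + a) 1 w := (hasDerivAt_id w).add_const a
  have h2 : HasDerivAt (fun w : ℂ => 1 + (starRingEnd ℂ) a * w) ((starRingEnd ℂ) a * 1) w :=
    ((hasDerivAt_id w).const_mul _).const_add _
  have h3 := h1.div h2 (mo_ne ha hw)
  have e : (1 * (1 + (starRingEnd ℂ) a * w) - (w + a) * ((starRingEnd ℂ) a * 1)) / (1 + (starRingEnd ℂ) a * w) ^ 2 =
      (1 - ‖a‖ ^ 2 : ℝ) / (1 + (starRingEnd ℂ) a * w) ^ 2 := by
    congr 1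
    have h4 : a * (starRingEnd ℂ) a = ((‖a‖ ^ 2 : ℝ) : ℂ) := by
      rw [Complex.mul_conj, Complex.normSq_eq_norm_sq]
    push_cast at h4 ⊢
    linear_combination -h4
  rw [← e]
  exact h3

/-- invariance of the pseudohyperbolic distance -/
theorem pd_mo {a w w' : ℂ} (ha : ‖a‖ < 1) (hw : ‖w‖ < 1) (hw' : ‖w'‖ < 1) : pd (mo a w) (mo a w') = pd w w' := by
  have h1 := mo_ne ha hw
  have h2 := mo_ne ha hw'
  have h2c : 1 + a * (starRingEnd ℂ) w' ≠ 0 := by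
    intro h
    apply h2
    have := congrArg (starRingEnd ℂ) h
    simpa using this
  have h3 : 1 + (starRingEnd ℂ) (-w') * w ≠ 0 := mo_ne (by rwa [norm_neg]) hw
  have h4 : (1 : ℂ) - a * (starRingEnd ℂ) a ≠ 0 := by
    have := mo_ne (a := -a) (by rwa [norm_neg]) ha
    intro h
    apply this
    rw [map_neg, ← h]
    ring
  have hN : mo a w + -mo a w' = (w - w') * (1 - a * (starRingEnd ℂ) a) / ((1 + (starRingEnd ℂ) a * w) * (1 + (starRingEnd ℂ) a * w')) :=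
    alg2 h1 h2
  have hD : 1 + (starRingEnd ℂ) (-mo a w') * mo a w =
      (1 - (starRingEnd ℂ) w' * w) * (1 - a * (starRingEnd ℂ) a) / ((1 + (starRingEnd ℂ) a * w) * (1 + a * (starRingEnd ℂ) w')) := by
    unfold mo
    rw [map_neg, map_div₀, map_add, map_add, map_mul, map_one, Complex.conj_conj]
    exact alg3 h1 h2c
  have hnn : ‖1 + a * (starRingEnd ℂ) w'‖ = ‖1 + (starRingEnd ℂ) a * w'‖ := by
    rw [← RCLike.norm_conj (1 + (starRingEnd ℂ) a * w')]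
    simp
  show ‖(mo a w + -mo a w') / (1 + (starRingEnd ℂ) (-mo a w') * mo a w)‖ = ‖(w + -w') / (1 + (starRingEnd ℂ) (-w') * w)‖
  rw [hN, hD, norm_div, norm_div, norm_div, norm_div, norm_mul, norm_mul, norm_mul, norm_mul, hnn]
  have e1 : 1 + (starRingEnd ℂ) (-w') * w = 1 - (starRingEnd ℂ) w' * w := by rw [map_neg]; ring
  have e2 : w + -w' = w - w' := by ring
  rw [e1, e2]
  rw [e1] at h3
  have n1 := norm_pos_iff.2 h1
  have n2 := norm_pos_iff.2 h2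
  have n3 := norm_pos_iff.2 h3
  have n4 := norm_pos_iff.2 h4
  have n5 : ‖1 - (starRingEnd ℂ) w' * w‖ * ‖1 - a * (starRingEnd ℂ) a‖ /
      (‖1 + (starRingEnd ℂ) a * w‖ * ‖1 + (starRingEnd ℂ) a * w'‖) ≠ 0 := (by positivity)
  rw [div_eq_div_iff n5 n3.ne', div_mul_eq_mul_div, mul_div_assoc']
  congr 1
  ring

theorem sp_bd {h : ℂ → ℂ} (hd : DifferentiableOn ℂ h (ball 0 1)) {c : ℂ} {D : ℝ} (hm : ∀ x ∈ ball (0 : ℂ) 1, h x ∈ ball c D)
    {x : ℂ} (hx : ‖x‖ < 1) : ‖deriv h x‖ * (1 - ‖x‖ ^ 2) ≤ 2 * D := by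
  have hx0 := norm_nonneg x
  have hcomp : DifferentiableOn ℂ (fun w => h (mo x w)) (ball 0 1) :=
    hd.comp (mo_diff hx) fun w hw => mem_ball_zero_iff.2 (mo_lt hx (mem_ball_zero_iff.1 hw))
  have hmaps : MapsTo (fun w => h (mo x w)) (ball 0 1) (closedBall (h (mo x 0)) (2 * D)) := by
    intro w hw
    have h1 := mem_ball.1 (hm (mo x w) (mem_ball_zero_iff.2 (mo_lt hx (mem_ball_zero_iff.1 hw))))
    have h2 := mem_ball.1 (hm (mo x 0) (mem_ball_zero_iff.2 (mo_lt hx (by simp))))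
    rw [mem_closedBall]
    calc dist (h (mo x w)) (h (mo x 0)) ≤ dist (h (mo x w)) c + dist (h (mo x 0)) c := dist_triangle_right _ _ _
      _ ≤ 2 * D := by linarith
  have h1 := Complex.norm_deriv_le_div_of_mapsTo_ball hcomp hmaps one_pos
  have h2 : HasDerivAt (fun w => h (mo x w)) (deriv h (mo x 0) * ((1 - ‖x‖ ^ 2 : ℝ) / (1 + (starRingEnd ℂ) x * 0) ^ 2)) 0 :=
    HasDerivAt.comp (0 : ℂ) (hd.differentiableAt (isOpen_ball.mem_nhds (by
      rw [mo_zero]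
      exact mem_ball_zero_iff.2 hx))).hasDerivAt (mo_der hx (by simp))
  rw [h2.deriv, mo_zero, mul_zero, add_zero, one_pow, div_one, norm_mul, Complex.norm_real, Real.norm_of_nonneg (by nlinarith), div_one] at h1
  exact h1

theorem sp_der {h : ℂ → ℂ} (hd : DifferentiableOn ℂ h (ball 0 1)) (hm : ∀ x ∈ ball (0 : ℂ) 1, h x ∈ ball (0 : ℂ) 1)
    {x : ℂ} (hx : ‖x‖ < 1) : ‖deriv h x‖ * (1 - ‖x‖ ^ 2) ≤ 1 - ‖h x‖ ^ 2 := by
  have hx0 := norm_nonneg x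
  have hh : ‖h x‖ < 1 := mem_ball_zero_iff.1 (hm x (mem_ball_zero_iff.2 hx))
  have hh0 := norm_nonneg (h x)
  have hneg : ‖-h x‖ < 1 := by rwa [norm_neg]
  have hcomp : DifferentiableOn ℂ (fun w => mo (-h x) (h (mo x w))) (ball 0 1) :=
    (mo_diff hneg).comp (hd.comp (mo_diff hx) fun w hw => mem_ball_zero_iff.2 (mo_lt hx (mem_ball_zero_iff.1 hw)))
      fun w hw => hm _ (mem_ball_zero_iff.2 (mo_lt hx (mem_ball_zero_iff.1 hw)))
  have h0 : mo (-h x) (h (mo x 0)) = 0 := by rw [mo_zero, mo_self]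
  have hmaps : MapsTo (fun w => mo (-h x) (h (mo x w))) (ball 0 1) (closedBall (mo (-h x) (h (mo x 0))) 1) := by
    intro w hw
    rw [h0, mem_closedBall_zero_iff]
    exact (mo_lt hneg (mem_ball_zero_iff.1 (hm _ (mem_ball_zero_iff.2 (mo_lt hx (mem_ball_zero_iff.1 hw)))))).le
  have h1 := Complex.norm_deriv_le_div_of_mapsTo_ball hcomp hmaps one_pos
  have h2 : HasDerivAt (fun w => h (mo x w)) (deriv h (mo x 0) * ((1 - ‖x‖ ^ 2 : ℝ) / (1 + (starRingEnd ℂ) x * 0) ^ 2)) 0 :=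
    HasDerivAt.comp (0 : ℂ) (hd.differentiableAt (isOpen_ball.mem_nhds (by
      rw [mo_zero]
      exact mem_ball_zero_iff.2 hx))).hasDerivAt (mo_der hx (by simp))
  have h3 : HasDerivAt (mo (-h x)) ((1 - ‖-h x‖ ^ 2 : ℝ) / (1 + (starRingEnd ℂ) (-h x) * (h (mo x 0))) ^ 2) (h (mo x 0)) :=
    mo_der hneg (by rw [mo_zero]; exact hh)
  have h4 := HasDerivAt.comp (0 : ℂ) h3 h2
  have h5 : deriv (fun w => mo (-h x) (h (mo x w))) 0 =
      (1 - ‖-h x‖ ^ 2 : ℝ) / (1 + (starRingEnd ℂ) (-h x) * (h (mo x 0))) ^ 2 *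
        (deriv h (mo x 0) * ((1 - ‖x‖ ^ 2 : ℝ) / (1 + (starRingEnd ℂ) x * 0) ^ 2)) := h4.deriv
  have hpos : 0 < 1 - ‖h x‖ ^ 2 := by nlinarith
  have e1 : (1 : ℂ) + (starRingEnd ℂ) (-h x) * h x = ((1 - ‖h x‖ ^ 2 : ℝ) : ℂ) := by
    have h6 : (starRingEnd ℂ) (h x) * h x = ((‖h x‖ ^ 2 : ℝ) : ℂ) := by
      rw [mul_comm, Complex.mul_conj, Complex.normSq_eq_norm_sq]
    rw [map_neg]
    push_cast at h6 ⊢
    linear_combination -h6
  rw [h5, mo_zero, mul_zero, add_zero, one_pow, div_one, norm_neg, e1, norm_mul, norm_mul, norm_div, norm_pow,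
    Complex.norm_real, Complex.norm_real, Real.norm_of_nonneg hpos.le, Real.norm_of_nonneg (by nlinarith), div_one] at h1
  have h7 : (1 - ‖h x‖ ^ 2) / (1 - ‖h x‖ ^ 2) ^ 2 = (1 - ‖h x‖ ^ 2)⁻¹ := by
    field_simp
  rw [h7, inv_mul_le_iff₀ hpos, mul_one] at h1
  exact h1

end Pool.Agent.H47.LW
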